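import Mathlib
import Pool.Agent.Run7.h93.Graded

set_option autoImplicit false

open scoped Classical

/-- In a finite Gaussian poset every element is covered by at most two elements and covers at
most two elements. -/
theorem Pool.Agent.Results.MP_448cb3_co.CoverBounds.result :
    ∀ (α : Type) [Fintype α] [PartialOrder α],
      (∃ h : Fin (Fintype.card α) → ℕ, (∀ i, 0 < h i) ∧
        ∀ m : ℕ,
          (∑ σ ∈ (Finset.univ.filter (fun σ : α → Fin (m + 1) => Monotone σ)),
              (Polynomial.X : Polynomial ℤ) ^ (∑ x, (σ x).val)) *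
            ∏ i, (1 - (Polynomial.X : Polynomial ℤ) ^ (h i)) =
          ∏ i, (1 - (Polynomial.X : Polynomial ℤ) ^ (m + h i))) →
      ∀ x : α, {y : α | x ⋖ y}.ncard ≤ 2 ∧ {y : α | y ⋖ x}.ncard ≤ 2 := by
  intro α _ P hG x
  obtain ⟨h, hh⟩ := hG
  have h1 := Run7.h93.cover_bounds (h := h) hh x
  rw [Set.ncard_eq_toFinset_card', Set.ncard_eq_toFinset_card']
  simpa using h1
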