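import Mathlib
import Pool.Agent.Run7.h93.Edge

set_option autoImplicit false

open scoped Classical

/-- In a finite connected Gaussian poset with rank function `ρ`, for every rank `i` that occurs,
the number of covering pairs between the ranks `i` and `i + 1` plus the number of minimal elements
is the number of elements of rank `i` or `i + 1`. -/
theorem Pool.Agent.Results.MP_448cb3_co.EdgeCount.result :
    ∀ (α : Type) [Fintype α] [PartialOrder α],
      (∀ a b : α, Relation.ReflTransGen (fun x y : α => x ≤ y ∨ y ≤ x) a b) →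
      (∃ h : Fin (Fintype.card α) → ℕ, (∀ i, 0 < h i) ∧
        ∀ m : ℕ,
          (∑ σ ∈ (Finset.univ.filter (fun σ : α → Fin (m + 1) => Monotone σ)),
              (Polynomial.X : Polynomial ℤ) ^ (∑ x, (σ x).val)) *
            ∏ i, (1 - (Polynomial.X : Polynomial ℤ) ^ (h i)) =
          ∏ i, (1 - (Polynomial.X : Polynomial ℤ) ^ (m + h i))) →
      ∀ ρ : α → ℕ, (∀ x y : α, x ⋖ y → ρ y = ρ x + 1) → (∀ x : α, IsMin x → ρ x = 0) →
      ∀ i : ℕ, (∃ x, ρ x = i) →
        Nat.card {p : α × α // p.1 ⋖ p.2 ∧ ρ p.1 = i} + Nat.card {x : α // IsMin x} =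
          Nat.card {x : α // ρ x = i} + Nat.card {x : α // ρ x = i + 1} := by
  intro α _ P hc hG ρ h1 h0 i hi
  obtain ⟨h, hh⟩ := hG
  exact Run7.h93.edge_rank (h := h) hh hc ρ h1 h0 i hi
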