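import Mathlib
import Pool.Agent.Run7.h93.TreeDual

set_option autoImplicit false

open scoped Classical

/-- A nonempty finite Gaussian poset is a distributive lattice as soon as one of the following
holds: any two elements have a least upper bound; any two elements have a greatest lower bound;
the poset is connected and any two distinct elements covering a common element are covered by a
common element; the poset is connected and any two distinct elements covered by a common element
cover a common element. -/
theorem Pool.Agent.Results.MP_448cb3_co.LatticeCriterion.result :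
    ∀ (α : Type) [Fintype α] [P : PartialOrder α],
      Nonempty α →
      (∃ h : Fin (Fintype.card α) → ℕ, (∀ i, 0 < h i) ∧
        ∀ m : ℕ,
          (∑ σ ∈ (Finset.univ.filter (fun σ : α → Fin (m + 1) => Monotone σ)),
              (Polynomial.X : Polynomial ℤ) ^ (∑ x, (σ x).val)) *
            ∏ i, (1 - (Polynomial.X : Polynomial ℤ) ^ (h i)) =
          ∏ i, (1 - (Polynomial.X : Polynomial ℤ) ^ (m + h i))) →
      ((∀ a b : α, ∃ c, IsLUB {a, b} c) ∨
        (∀ a b : α, ∃ c, IsGLB {a, b} c) ∨
        ((∀ a b : α, Relation.ReflTransGen (fun x y : α => x ≤ y ∨ y ≤ x) a b) ∧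
          ∀ x y y' : α, x ⋖ y → x ⋖ y' → y ≠ y' → ∃ z, y ⋖ z ∧ y' ⋖ z) ∨
        ((∀ a b : α, Relation.ReflTransGen (fun x y : α => x ≤ y ∨ y ≤ x) a b) ∧
          ∀ x y y' : α, y ⋖ x → y' ⋖ x → y ≠ y' → ∃ z, z ⋖ y ∧ z ⋖ y')) →
      ∃ L : DistribLattice α, L.toLattice.toSemilatticeSup.toPartialOrder = P := by
  intro α _ P hne hG hlat
  obtain ⟨h, hh⟩ := hG
  rcases hlat with hs | hi | ⟨hc, hl⟩ | ⟨hc, hl⟩
  · exact Run7.h93.distrib_of_sup (h := h) hh hs
  · exact Run7.h93.distrib_of_inf (h := h) hh hi
  · exact Run7.h93.distrib_of_luc (h := h) hh hl hc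
  · exact Run7.h93.distrib_of_llc (h := h) hh hl hc
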